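import Pool.Agent.X164.CY.Main

set_option autoImplicit false
open scoped Pointwise

namespace Pool.Agent.Results.MP_626a77_co.NearlyDenseCyclicGroups

/-- The integer vector `x` lies in the set `B` of real vectors. -/
def In {d : ℕ} (x : Fin d → ℤ) (B : Set (Fin d → ℝ)) : Prop := (fun i => (x i : ℝ)) ∈ B

/-- `B` is a centrally symmetric convex body. -/
def IsBody {d : ℕ} (B : Set (Fin d → ℝ)) : Prop :=
  Convex ℝ B ∧ IsCompact B ∧ (interior B).Nonempty ∧ ∀ v ∈ B, -v ∈ B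

/-- **Q1**: for some constant `C`, every finite nonempty `A ⊆ ℤ` with `|A + A| ≤ K |A|`, `K ≥ 2`, is
covered by at most `C K ^ C` translates of a centred convex progression `ψ(ℤ^d ∩ B)` of dimension
`d ≤ C log K` and volume `|ℤ^d ∩ B| ≤ |A|`. (The base point of the progression is absorbed by the
translates.) -/
def Q1 : Prop := ∃ C : ℝ, ∀ K : ℝ, 2 ≤ K → ∀ A : Finset ℤ, A.Nonempty →
  ((A + A).card : ℝ) ≤ K * A.card →
  ∃ (d : ℕ) (B : Set (Fin d → ℝ)) (ψ : (Fin d → ℤ) →+ ℤ) (T : Finset ℤ),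
    (d : ℝ) ≤ C * Real.log K ∧ IsBody B ∧ {x : Fin d → ℤ | In x B}.ncard ≤ A.card ∧
    (T.card : ℝ) ≤ C * K ^ C ∧ ∀ a ∈ A, ∃ t ∈ T, ∃ x : Fin d → ℤ, In x B ∧ a = t + ψ x

/-- The conclusion of Q1 in an abelian group `Γ` with the constant `C`: `A` is covered by at most
`C K ^ C` translates of the centred convex coset progression `ψ(ℤ^d ∩ B) + H`, of dimension
`d ≤ C log (2 K)` and of volume `|ℤ^d ∩ B| |H| ≤ |A|`. -/
def Covered (C K : ℝ) {Γ : Type*} [AddCommGroup Γ] (A : Finset Γ) : Prop :=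
  ∃ (d : ℕ) (B : Set (Fin d → ℝ)) (ψ : (Fin d → ℤ) →+ Γ) (H : AddSubgroup Γ) (T : Finset Γ),
    (d : ℝ) ≤ C * Real.log (2 * K) ∧
    IsBody B ∧ Finite H ∧
    {x : Fin d → ℤ | In x B}.ncard * Nat.card H ≤ A.card ∧ (T.card : ℝ) ≤ C * K ^ C ∧
    ∀ a ∈ A, ∃ t ∈ T, ∃ x : Fin d → ℤ, In x B ∧ ∃ h ∈ H, a = t + ψ x + h

theorem finite_subgroup_int (H : AddSubgroup ℤ) (hH : Finite H) : ∀ h ∈ H, h = 0 := by
  intro h hh
  by_contra h0
  have hinj : Function.Injective (fun n : ℕ => (⟨n • h, H.nsmul_mem hh n⟩ : H)) := by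
    intro a b e
    have e1 : (a : ℤ) * h = b * h := by
      have := congrArg Subtype.val e
      simpa using this
    exact_mod_cast mul_right_cancel₀ h0 e1
  exact not_injective_infinite_finite _ hinj

theorem q1_iff : Q1 ↔ ∃ C : ℝ, ∀ (K : ℝ) (A : Finset ℤ), A.Nonempty →
    ((A + A).card : ℝ) ≤ K * A.card → Covered C K A := by
  constructor
  · rintro ⟨C, hC⟩
    set C₁ : ℝ := max C 1 with hC₁
    have hCC : C ≤ C₁ := le_max_left _ _
    have h1C : 1 ≤ C₁ := le_max_right _ _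
    have h2C : (1 : ℝ) ≤ 2 ^ C₁ := Real.one_le_rpow (by norm_num) (by linarith)
    refine ⟨C₁ * 2 ^ C₁, fun K A hA hK => ?_⟩
    have hK1 : 1 ≤ K := Pool.Agent.Y806.DF.one_le_K hA hK
    have hK2 : 2 ≤ 2 * K := by linarith
    have hK' : ((A + A).card : ℝ) ≤ (2 * K) * A.card := by
      refine hK.trans (mul_le_mul_of_nonneg_right ?_ (Nat.cast_nonneg _))
      linarith
    obtain ⟨d, B, ψ, T, h1, h2, h3, h4, h5⟩ := hC (2 * K) hK2 A hA hK'
    have hlog : 0 ≤ Real.log (2 * K) := Real.log_nonneg (by linarith)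
    have hC₁' : C₁ ≤ C₁ * 2 ^ C₁ := le_mul_of_one_le_right (by linarith) h2C
    refine ⟨d, B, ψ, ⊥, T, ?_, h2, inferInstance, ?_, ?_, ?_⟩
    · exact h1.trans (mul_le_mul_of_nonneg_right (hCC.trans hC₁') hlog)
    · rw [AddSubgroup.card_bot, mul_one]
      exact h3
    · have e1 : (2 * K) ^ C ≤ (2 * K) ^ C₁ :=
        Real.rpow_le_rpow_of_exponent_le (by linarith) hCC
      have e2 : (2 * K) ^ C₁ = 2 ^ C₁ * K ^ C₁ := Real.mul_rpow (by norm_num) (by linarith)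
      have e3 : K ^ C₁ ≤ K ^ (C₁ * 2 ^ C₁) := Real.rpow_le_rpow_of_exponent_le hK1 hC₁'
      have e4 : 0 ≤ (2 * K) ^ C := Real.rpow_nonneg (by linarith) _
      calc (T.card : ℝ) ≤ C * (2 * K) ^ C := h4
        _ ≤ C₁ * (2 * K) ^ C := mul_le_mul_of_nonneg_right hCC e4
        _ ≤ C₁ * (2 * K) ^ C₁ := mul_le_mul_of_nonneg_left e1 (by linarith)
        _ = C₁ * 2 ^ C₁ * K ^ C₁ := by rw [e2]; ring
        _ ≤ C₁ * 2 ^ C₁ * K ^ (C₁ * 2 ^ C₁) := mul_le_mul_of_nonneg_left e3 (by positivity)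
    · intro a ha
      obtain ⟨t, ht, x, hx, e⟩ := h5 a ha
      exact ⟨t, ht, x, hx, 0, AddSubgroup.zero_mem _, by rw [e, add_zero]⟩
  · rintro ⟨C, hC⟩
    refine ⟨2 * max C 0, fun K hK2 A hA hK => ?_⟩
    obtain ⟨d, B, ψ, H, T, h1, h2, h3, h4, h5, h6⟩ := hC K A hA hK
    have hCC : C ≤ 2 * max C 0 := by
      have := le_max_left C 0
      have := le_max_right C 0
      linarith
    refine ⟨d, B, ψ, T, ?_, h2, ?_, ?_, ?_⟩
    · have e1 : Real.log (2 * K) ≤ 2 * Real.log K := by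
        rw [Real.log_mul (by norm_num) (by linarith)]
        have := Real.log_le_log (by norm_num) hK2
        linarith
      have e2 : 0 ≤ Real.log (2 * K) := Real.log_nonneg (by linarith)
      calc (d : ℝ) ≤ C * Real.log (2 * K) := h1
        _ ≤ max C 0 * Real.log (2 * K) := mul_le_mul_of_nonneg_right (le_max_left _ _) e2
        _ ≤ max C 0 * (2 * Real.log K) := mul_le_mul_of_nonneg_left e1 (le_max_right _ _)
        _ = 2 * max C 0 * Real.log K := by ring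
    · have : 1 ≤ Nat.card H := Nat.card_pos
      exact (Nat.le_mul_of_pos_right _ this).trans h4
    · have e1 : K ^ C ≤ K ^ (2 * max C 0) := Real.rpow_le_rpow_of_exponent_le (by linarith) hCC
      have e2 : 0 ≤ K ^ C := Real.rpow_nonneg (by linarith) _
      have e3 : (0 : ℝ) ≤ 2 * max C 0 := by positivity
      calc (T.card : ℝ) ≤ C * K ^ C := h5
        _ ≤ 2 * max C 0 * K ^ C := mul_le_mul_of_nonneg_right hCC e2
        _ ≤ _ := mul_le_mul_of_nonneg_left e1 e3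
    · intro a ha
      obtain ⟨t, ht, x, hx, h, hh, e⟩ := h6 a ha
      refine ⟨t, ht, x, hx, ?_⟩
      rw [e, finite_subgroup_int H h3 h hh, add_zero]

/-- **Nearly dense subsets of cyclic 2-groups decide Q1.** Let `𝒩` be an unbounded set of positive
integers all of whose prime factors divide a fixed `n ≥ 2` (for example the powers of `2`), and let
`ω(N)` be any function that tends to infinity, however slowly. The following are equivalent.

* Q1;
* the conclusion of Q1 (for coset progressions, with some constant) for all sets `S ⊆ ℤ/N` with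
  `|S + S| ≤ K |S|`, `N ∈ 𝒩`;
* the same for the sets `S ⊆ ℤ/N` with `|S| ≥ N / ω(N)` only.

The last condition implies Q1 for every unbounded set `𝒩` of positive integers. -/
theorem result (𝒩 : Set ℕ) (h0 : 0 ∉ 𝒩) (hunb : ∀ b : ℕ, ∃ N ∈ 𝒩, b < N) (ω : ℕ → ℝ)
    (hω : Filter.Tendsto ω Filter.atTop Filter.atTop) :
    ((∃ C : ℝ, ∀ N ∈ 𝒩, ∀ (K : ℝ) (S : Finset (ZMod N)), S.Nonempty → (N : ℝ) ≤ ω N * S.card →
        ((S + S).card : ℝ) ≤ K * S.card → Covered C K S) → Q1) ∧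
      ∀ n : ℕ, 2 ≤ n → (∀ N ∈ 𝒩, ∀ p : ℕ, p.Prime → p ∣ N → p ∣ n) →
        List.TFAE [
          Q1,
          ∃ C : ℝ, ∀ N ∈ 𝒩, ∀ (K : ℝ) (S : Finset (ZMod N)), S.Nonempty →
            ((S + S).card : ℝ) ≤ K * S.card → Covered C K S,
          ∃ C : ℝ, ∀ N ∈ 𝒩, ∀ (K : ℝ) (S : Finset (ZMod N)), S.Nonempty →
            (N : ℝ) ≤ ω N * S.card → ((S + S).card : ℝ) ≤ K * S.card → Covered C K S] := by
  have key : (∃ C : ℝ, ∀ N ∈ 𝒩, ∀ (K : ℝ) (S : Finset (ZMod N)), S.Nonempty →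
      (N : ℝ) ≤ ω N * S.card → ((S + S).card : ℝ) ≤ K * S.card → Covered C K S) → Q1 := by
    rintro ⟨C, hC⟩
    obtain ⟨C', hC'⟩ := Pool.Agent.X164.CY.int_of_cyc hunb hω (C := C)
      (fun N hN K S h1 h2 h3 => hC N hN K S h1 h2 h3)
    exact q1_iff.2 ⟨C', fun K A hA hK => hC' K A hA hK⟩
  refine ⟨key, fun n hn hsm => ?_⟩
  tfae_have 1 → 2 := by
    intro hQ
    obtain ⟨C, hC⟩ := q1_iff.1 hQ
    obtain ⟨C', hC'⟩ := Pool.Agent.X164.WM.int_imp_cop hn hC (m := 1) one_pos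
    refine ⟨C', fun N hN K S hS hK => ?_⟩
    refine hC' (G := ZMod N) ?_ K S hS hK
    intro k x hk hx
    have hN0 : N ≠ 0 := fun h => h0 (h ▸ hN)
    have h1 : addOrderOf x ∣ k := addOrderOf_dvd_iff_nsmul_eq_zero.2 hx
    have h2 : addOrderOf x ∣ N := by
      refine addOrderOf_dvd_iff_nsmul_eq_zero.2 ?_
      rw [nsmul_eq_mul, ZMod.natCast_self, zero_mul]
    have h3 : addOrderOf x = 1 := by
      by_contra hne
      obtain ⟨p, hp, hpd⟩ := Nat.exists_prime_and_dvd hne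
      have h4 := hsm N hN p hp (hpd.trans h2)
      have h5 := Nat.dvd_gcd (hpd.trans h1) h4
      rw [Nat.Coprime] at hk
      rw [hk] at h5
      exact hp.one_lt.ne' (Nat.dvd_one.1 h5)
    exact addOrderOf_dvd_iff_nsmul_eq_zero.1 (by rw [h3])
  tfae_have 2 → 3 := by
    rintro ⟨C, hC⟩
    exact ⟨C, fun N hN K S hS _ hK => hC N hN K S hS hK⟩
  tfae_have 3 → 1 := key
  tfae_finish

end Pool.Agent.Results.MP_626a77_co.NearlyDenseCyclicGroups
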