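import Mathlib
import Pool.Agent.X37.PS.ConvDown

set_option autoImplicit false

/-!
# The polynomial Freiman–Ruzsa conjecture in the integers: products and down-sets

For a finite set `A` in an abelian group let `κ(A) = |A + A| / |A|`, and say that `A` satisfies
`ConvexPFR C` if at most `κ(A)^C` translates of a centred convex progression `ψ(ℤ^d ∩ B)` of dimension
`d ≤ C log κ(A)` and volume `|ℤ^d ∩ B| ≤ |A|` cover `A`.  This is the conclusion of Q1.  It holds with
`C = 20` for the homomorphic images of the down-sets of `ℕ^n`, `n` and `κ` arbitrary, and with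
`C = 51000 (1 + log (1 + log (2 K₀)))` for the sets with `κ(A) ≤ K₀` in torsion-free groups; and it is
inherited, with the same `C`, by products of any number of factors and by the homomorphic images of
such products under homomorphisms which are injective on the sumset.
-/

namespace Pool.Agent.Results.MP_626a77_co.ProductClosure

open Finset
open scoped Pointwise

universe u v w

/-- the integer vector `x` lies in `B` -/
def In {d : ℕ} (x : Fin d → ℤ) (B : Set (Fin d → ℝ)) : Prop := (fun i => (x i : ℝ)) ∈ B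

/-- `B` is a centrally symmetric convex body -/
def IsBody {d : ℕ} (B : Set (Fin d → ℝ)) : Prop :=
  Convex ℝ B ∧ IsCompact B ∧ (interior B).Nonempty ∧ ∀ v ∈ B, -v ∈ B

/-- the doubling constant `|A + A| / |A|` -/
noncomputable def κ {G : Type*} [AddCommGroup G] [DecidableEq G] (A : Finset G) : ℝ :=
  ((A + A).card : ℝ) / A.card

/-- `A` is not empty and is covered by at most `κ(A) ^ C` translates of a centred convex progression
`ψ(ℤ^d ∩ B)` of dimension `d ≤ C log κ(A)` and volume `|ℤ^d ∩ B| ≤ |A|`. -/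
def ConvexPFR {G : Type*} [AddCommGroup G] [DecidableEq G] (C : ℝ) (A : Finset G) : Prop :=
  A.Nonempty ∧ ∃ (d : ℕ) (B : Set (Fin d → ℝ)) (ψ : (Fin d → ℤ) →+ G) (T : Finset G),
    (d : ℝ) ≤ C * Real.log (κ A) ∧ IsBody B ∧ {x : Fin d → ℤ | In x B}.ncard ≤ A.card ∧
    (T.card : ℝ) ≤ κ A ^ C ∧ ∀ a ∈ A, ∃ t ∈ T, ∃ x : Fin d → ℤ, In x B ∧ a = t + ψ x

/-- the exponent `51000 (1 + log (1 + log (2 K)))` -/
noncomputable def ex (K : ℝ) : ℝ := 51000 * (1 + Real.log (1 + Real.log (2 * K)))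

lemma pfr_iff {G : Type*} [AddCommGroup G] [DecidableEq G] (C : ℝ) (A : Finset G) :
    ConvexPFR C A ↔ Pool.Agent.X37.PS.CGood C A := Iff.rfl

/-- **The polynomial Freiman–Ruzsa conjecture with convex progressions: products and down-sets.**
(1) Closure under products and homomorphic images. (2) Bounded doubling. (3) Images of down-sets of
any dimension and doubling. (4) The conclusion of Q1 for every `K ≥ κ(A)`. -/
theorem result :
    (∀ (ι : Type w) [Fintype ι] [DecidableEq ι] (G : ι → Type u) [∀ i, AddCommGroup (G i)]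
      [∀ i, DecidableEq (G i)] (Z : Type v) [AddCommGroup Z] [DecidableEq Z] (C : ℝ)
      (A : ∀ i, Finset (G i)) (π : (∀ i, G i) →+ Z) (c : Z),
      (∀ i, ConvexPFR C (A i)) →
      Set.InjOn π (↑(Fintype.piFinset A + Fintype.piFinset A) : Set (∀ i, G i)) →
      ConvexPFR C ((Fintype.piFinset A).image fun x => c + π x)) ∧
    (∀ (G : Type u) [AddCommGroup G] [DecidableEq G] (A : Finset G) (K₀ C : ℝ),
      (∀ (n : ℕ) (x : G), n ≠ 0 → n • x = 0 → x = 0) → A.Nonempty →
      ((A + A).card : ℝ) ≤ K₀ * A.card → ex K₀ ≤ C → ConvexPFR C A) ∧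
    (∀ (G : Type u) [AddCommGroup G] [DecidableEq G] (n : ℕ) (D : Finset (Fin n → ℕ))
      (θ : (Fin n → ℤ) →+ G) (g : G) (C : ℝ), D.Nonempty → (∀ x ∈ D, ∀ y, y ≤ x → y ∈ D) →
      Set.InjOn (fun x : Fin n → ℕ => θ fun i => (x i : ℤ)) (D + D : Finset (Fin n → ℕ)) →
      20 ≤ C → ConvexPFR C (D.image fun x => g + θ fun i => (x i : ℤ))) ∧
    (∀ (G : Type u) [AddCommGroup G] [DecidableEq G] (A : Finset G) (K C : ℝ), 1 ≤ C →
      ConvexPFR C A → ((A + A).card : ℝ) ≤ K * A.card →
      ∃ (d : ℕ) (B : Set (Fin d → ℝ)) (ψ : (Fin d → ℤ) →+ G) (T : Finset G),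
        (d : ℝ) ≤ C * Real.log K ∧ IsBody B ∧ {x : Fin d → ℤ | In x B}.ncard ≤ A.card ∧
        (T.card : ℝ) ≤ C * K ^ C ∧ ∀ a ∈ A, ∃ t ∈ T, ∃ x : Fin d → ℤ, In x B ∧ a = t + ψ x) := by
  refine ⟨?_, ?_, ?_, ?_⟩
  · intro ι _ _ G _ _ Z _ _ C A π c hA hπ
    simp only [pfr_iff] at hA ⊢
    exact Pool.Agent.X37.PS.cclosure A hA π c hπ
  · intro G _ _ A K₀ C htf hA hK₀ hC
    rw [pfr_iff]
    exact (Pool.Agent.X37.PS.cgood_of_doubling htf hA hK₀).mono hC
  · intro G _ _ n D θ g C hne hD hθ hC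
    rw [pfr_iff]
    exact (Pool.Agent.X37.PS.cgood_of_down n D hD hne θ g hθ rfl).mono hC
  · intro G _ _ A K C hC hA hK
    obtain ⟨hne, d, B, ψ, T, h1, h2, h3, h4, h5⟩ := hA
    have hpos : (0 : ℝ) < A.card := by exact_mod_cast hne.card_pos
    have hκ1 : 1 ≤ κ A := Pool.Agent.X37.PS.kap_ge_one hne
    have hκK : κ A ≤ K := by
      unfold κ
      rwa [div_le_iff₀ hpos]
    have hpow : κ A ^ C ≤ K ^ C := Real.rpow_le_rpow (by linarith) hκK (by linarith)
    refine ⟨d, B, ψ, T, h1.trans ?_, h2, h3, (h4.trans hpow).trans ?_, h5⟩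
    · exact mul_le_mul_of_nonneg_left (Real.log_le_log (by linarith) hκK) (by linarith)
    · exact le_mul_of_one_le_left (Real.rpow_nonneg (by linarith) _) hC

end Pool.Agent.Results.MP_626a77_co.ProductClosure
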