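import Pool.Agent.X222.RS.Final

/-!
# Sumsets of the subsets of random sets; Q1 for the subsets of random sets

Let `X` be an ARBITRARY finite set with `n ≥ 2` elements in an abelian group `Γ` (for instance
`Γ = ℤ`). For all `k ≤ n` and all but a proportion `1/n` of the `k`-element subsets `S` of `X`:

(1) every nonempty subset `A` of `S` satisfies `|A+A| > |A|/1000 min(|A| / (log n)^2, n/k)`;
(2) if `k ≤ n^(1-ε)` then every nonempty subset `A` of `S` satisfies
`|A+A| > (ε^2/1000) |A| min(|A|, n^(ε/4))`;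
(3) if `k ≤ n^(1-ε)` then the conclusion of Q1 holds for every nonempty subset `A` of `S` and every
`K ≥ 2` with `|A+A| ≤ K |A|`, with a constant `C = C(ε)`.

Outline: write down the elements of a set `A` with `m` elements and at most `L` sums in any of the
`m!` orders. A new element `x` which creates few new sums `x + y` with the previous elements `y`
belongs to one of at most `2 L` places, and all but `2 √L + 2` of the new elements are of this kind.
So there are at most `(12 L / m)^m n^(2 √L + 2)` such subsets `A` of `X`.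
-/

set_option autoImplicit false

namespace Pool.Agent.Results.MP_626a77_co.RandomSubsets

open Finset
open scoped Pointwise

/-- The integer vector `x` lies in the set `B` of real vectors. -/
def In {d : ℕ} (x : Fin d → ℤ) (B : Set (Fin d → ℝ)) : Prop := (fun i => (x i : ℝ)) ∈ B

/-- `B` is a centrally symmetric convex body. -/
def IsBody {d : ℕ} (B : Set (Fin d → ℝ)) : Prop :=
  Convex ℝ B ∧ IsCompact B ∧ (interior B).Nonempty ∧ ∀ v ∈ B, -v ∈ B

/-- The conclusion of Q1 with the constant `C` in the abelian group `Γ`: `A` is covered by at most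
`C K ^ C` translates of a centred convex progression `ψ(ℤ^d ∩ B)` of dimension `d ≤ C log K` and
volume `|ℤ^d ∩ B| ≤ |A|`. -/
def Covered (C K : ℝ) {Γ : Type*} [AddCommGroup Γ] (A : Finset Γ) : Prop :=
  ∃ (d : ℕ) (B : Set (Fin d → ℝ)) (ψ : (Fin d → ℤ) →+ Γ) (T : Finset Γ),
    (d : ℝ) ≤ C * Real.log K ∧ IsBody B ∧ {x : Fin d → ℤ | In x B}.ncard ≤ A.card ∧
    (T.card : ℝ) ≤ C * K ^ C ∧ ∀ a ∈ A, ∃ t ∈ T, ∃ x : Fin d → ℤ, In x B ∧ a = t + ψ x

theorem covered_of_card {Γ : Type*} [AddCommGroup Γ] {C K : ℝ} (hC : 2 ≤ C) (hK : 2 ≤ K)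
    {A : Finset Γ} (hA : A.Nonempty) (h : (A.card : ℝ) ≤ C * K ^ C) : Covered C K A := by
  have hB : {x : Fin 1 → ℤ | In x (Set.pi Set.univ fun _ : Fin 1 =>
      Set.Icc (-(1 / 2) : ℝ) (1 / 2))} = {0} := by
    ext x
    simp only [In, Set.mem_ofPred_eq, Set.mem_pi, Set.mem_univ, true_implies, Set.mem_Icc,
      Set.mem_singleton_iff]
    constructor
    · intro hx
      funext i
      obtain ⟨h1, h2⟩ := hx i
      have h3 : (-1 : ℝ) < x i := by linarith
      have h4 : (x i : ℝ) < 1 := by linarith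
      have h5 : (-1 : ℤ) < x i := by exact_mod_cast h3
      have h6 : x i < 1 := by exact_mod_cast h4
      simp only [Pi.zero_apply]
      omega
    · rintro rfl i
      simp only [Pi.zero_apply, Int.cast_zero]
      norm_num
  refine ⟨1, Set.pi Set.univ fun _ => Set.Icc (-(1 / 2)) (1 / 2), 0, A, ?_,
    ⟨?_, ?_, ?_, ?_⟩, ?_, h, ?_⟩
  · have h1 : Real.log 2 ≤ Real.log K := Real.log_le_log (by norm_num) hK
    have h2 := Real.log_two_gt_d9
    push_cast
    nlinarith
  · exact convex_pi fun _ _ => convex_Icc _ _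
  · exact isCompact_univ_pi fun _ => isCompact_Icc
  · rw [interior_pi_set Set.finite_univ]
    refine ⟨0, fun i _ => ?_⟩
    rw [interior_Icc]
    constructor <;> norm_num
  · intro v hv i hi
    obtain ⟨h1, h2⟩ := hv i hi
    constructor
    · simp only [Pi.neg_apply]
      linarith
    · simp only [Pi.neg_apply]
      linarith
  · rw [hB, Set.ncard_singleton]
    exact hA.card_pos
  · intro a ha
    refine ⟨a, ha, 0, ?_, by simp⟩
    have : (0 : Fin 1 → ℤ) ∈ {x : Fin 1 → ℤ | In x (Set.pi Set.univ fun _ : Fin 1 =>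
      Set.Icc (-(1 / 2) : ℝ) (1 / 2))} := by rw [hB]; rfl
    exact this

open Classical in
theorem result {Γ : Type*} [AddCommGroup Γ] :
    (∀ (X : Finset Γ) (k : ℕ), 2 ≤ X.card → k ≤ X.card →
      ((((X.powersetCard k).filter fun S =>
        ∃ A : Finset Γ, A ⊆ S ∧ A.Nonempty ∧ ((A + A).card : ℝ) ≤
          A.card / 1000 * min (A.card / Real.log X.card ^ 2) (X.card / k)).card : ℕ) : ℝ) ≤
        (X.card.choose k : ℝ) / X.card) ∧
    (∀ ε : ℝ, 0 < ε → ε ≤ 1 → ∀ (X : Finset Γ) (k : ℕ), 2 ≤ X.card →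
      (k : ℝ) ≤ (X.card : ℝ) ^ (1 - ε) →
      ((((X.powersetCard k).filter fun S =>
        ∃ A : Finset Γ, A ⊆ S ∧ A.Nonempty ∧ ((A + A).card : ℝ) ≤
          ε ^ 2 / 1000 * A.card * min (A.card : ℝ) ((X.card : ℝ) ^ (ε / 4))).card : ℕ) : ℝ) ≤
        (X.card.choose k : ℝ) / X.card) ∧
    (∀ ε : ℝ, 0 < ε → ε ≤ 1 → ∃ C : ℝ, ∀ (X : Finset Γ) (k : ℕ), 2 ≤ X.card →
      (k : ℝ) ≤ (X.card : ℝ) ^ (1 - ε) →
      ((((X.powersetCard k).filter fun S =>
        ∃ (A : Finset Γ) (K : ℝ), A ⊆ S ∧ A.Nonempty ∧ 2 ≤ K ∧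
          ((A + A).card : ℝ) ≤ K * A.card ∧ ¬ Covered C K A).card : ℕ) : ℝ) ≤
        (X.card.choose k : ℝ) / X.card) := by
  refine ⟨fun X k hX hk => ?_, fun ε hε hε1 X k hX hk => ?_, fun ε hε hε1 => ?_⟩
  · convert Pool.Agent.X222.RS.dense X hX k hk
  · convert Pool.Agent.X222.RS.sparse ε hε hε1 X hX k hk
  · refine ⟨(1000 / ε ^ 2) ^ (4 / ε) + 4 / ε + 2, fun X k hX hk => ?_⟩
    have h := Pool.Agent.X222.RS.sparse ε hε hε1 X hX k hk
    refine le_trans (Nat.cast_le.2 (card_le_card ?_)) h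
    intro S hS
    obtain ⟨hS1, A, K, hAS, hA, hK, hAK, hcov⟩ := mem_filter.1 hS
    refine mem_filter.2 ⟨hS1, A, hAS, hA, ?_⟩
    by_contra hcon
    push Not at hcon
    apply hcov
    have hSX := (mem_powersetCard.1 hS1).1
    have hA0 : (0 : ℝ) < A.card := by exact_mod_cast hA.card_pos
    have hn2 : (2 : ℝ) ≤ X.card := by exact_mod_cast hX
    have hn0 : (0 : ℝ) < X.card := by linarith
    have hAX : (A.card : ℝ) ≤ X.card := by exact_mod_cast card_le_card (hAS.trans hSX)
    have h1 : min (A.card : ℝ) ((X.card : ℝ) ^ (ε / 4)) < 1000 / ε ^ 2 * K := by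
      have h2 : ε ^ 2 / 1000 * A.card * min (A.card : ℝ) ((X.card : ℝ) ^ (ε / 4)) < K * A.card := by
        refine lt_of_lt_of_le ?_ hAK
        convert hcon
      have h3 : ε ^ 2 / 1000 * min (A.card : ℝ) ((X.card : ℝ) ^ (ε / 4)) < K := by
        refine lt_of_mul_lt_mul_right ?_ hA0.le
        calc _ = ε ^ 2 / 1000 * A.card * min (A.card : ℝ) ((X.card : ℝ) ^ (ε / 4)) := by ring
          _ < _ := h2
      calc min (A.card : ℝ) ((X.card : ℝ) ^ (ε / 4))
          = 1000 / ε ^ 2 * (ε ^ 2 / 1000 * min (A.card : ℝ) ((X.card : ℝ) ^ (ε / 4))) := by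
            field_simp
        _ < 1000 / ε ^ 2 * K := mul_lt_mul_of_pos_left h3 (by positivity)
    have hbase : 1 ≤ 1000 / ε ^ 2 * K := by
      have h2 : 1 ≤ 1000 / ε ^ 2 := by
        rw [le_div_iff₀ (by positivity)]
        nlinarith
      nlinarith
    have hexp : 1 ≤ 4 / ε := by
      rw [le_div_iff₀ hε]
      linarith
    have h2 : (A.card : ℝ) ≤ (1000 / ε ^ 2 * K) ^ (4 / ε) := by
      rcases min_lt_iff.1 h1 with h3 | h3
      · calc (A.card : ℝ) ≤ 1000 / ε ^ 2 * K := h3.le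
          _ = (1000 / ε ^ 2 * K) ^ (1 : ℝ) := (Real.rpow_one _).symm
          _ ≤ _ := Real.rpow_le_rpow_of_exponent_le hbase hexp
      · calc (A.card : ℝ) ≤ X.card := hAX
          _ = ((X.card : ℝ) ^ (ε / 4)) ^ (4 / ε) := by
              rw [← Real.rpow_mul hn0.le, show ε / 4 * (4 / ε) = 1 by field_simp, Real.rpow_one]
          _ ≤ (1000 / ε ^ 2 * K) ^ (4 / ε) :=
              Real.rpow_le_rpow (by positivity) h3.le (by positivity)
    have hc0 : 0 < (1000 / ε ^ 2 : ℝ) ^ (4 / ε) := by positivity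
    have he0 : 0 < 4 / ε := by positivity
    refine covered_of_card (by linarith) hK hA (h2.trans ?_)
    rw [Real.mul_rpow (by positivity) (by linarith)]
    refine mul_le_mul (by linarith) ?_ (by positivity) (by positivity)
    exact Real.rpow_le_rpow_of_exponent_le (by linarith) (by linarith)

end Pool.Agent.Results.MP_626a77_co.RandomSubsets
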